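import Pool.Agent.N77.CP.Stm

/-!
# Part HBS (helper152): solvable groups with the maximal condition have bounded chains
-/

set_option autoImplicit false

namespace Pool.Agent.N77.CP.HBS

open Pool.Agent.N77.CP

/-- cyclic groups -/
lemma HB_cyc (Q : Type) [Group Q] (g : Q) (hg : ∀ x : Q, ∃ n : ℤ, g ^ n = x) : HB Q 1 := by
  intro k H hH hk
  by_contra hcon
  push Not at hcon
  have hcomm : ∀ x y : Q, x * y = y * x := by
    intro x y
    obtain ⟨n, rfl⟩ := hg x
    obtain ⟨m, rfl⟩ := hg y
    rw [← zpow_add, ← zpow_add, add_comm]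
  have h0 := hk 0 (by omega)
  have h1 := hk 1 (by omega)
  rw [zero_add] at h0
  rcases Subgroup.bot_or_exists_ne_one (H 1) with hb | ⟨x, hx, hx1⟩
  · rw [hb, Subgroup.relIndex_bot_right] at h1
    exact one_ne_zero h1
  · have hnorm : (H 1).Normal := ⟨fun n hn g => by rw [hcomm g n, mul_inv_cancel_right]; exact hn⟩
    obtain ⟨n, rfl⟩ := hg x
    have hn : n ≠ 0 := by
      rintro rfl
      exact hx1 (zpow_zero g)
    have hfin : IsOfFinOrder (QuotientGroup.mk g : Q ⧸ H 1) := by
      rw [isOfFinOrder_iff_zpow_eq_one]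
      refine ⟨n, hn, ?_⟩
      rw [← QuotientGroup.mk_zpow, QuotientGroup.eq_one_iff]
      exact hx
    have htop : Subgroup.zpowers (QuotientGroup.mk g : Q ⧸ H 1) = ⊤ := by
      rw [eq_top_iff]
      intro q _
      induction q using QuotientGroup.induction_on with
      | H y =>
        obtain ⟨l, rfl⟩ := hg y
        rw [Subgroup.mem_zpowers_iff]
        exact ⟨l, (QuotientGroup.mk_zpow _ _ _).symm⟩
    have hind : (H 1).index ≠ 0 := by
      rw [Subgroup.index, ← Subgroup.card_top (G := Q ⧸ H 1), ← htop, Nat.card_zpowers]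
      exact hfin.orderOf_pos.ne'
    have hdvd := Subgroup.relIndex_dvd_index_of_normal (H 1) (H 0)
    rw [h0, zero_dvd_iff] at hdvd
    exact hind hdvd

/-- trivial groups -/
lemma HB_triv (Q : Type) [Group Q] (h : ∀ x : Q, x = 1) : HB Q 0 := by
  intro k H hH hk
  by_contra hcon
  push Not at hcon
  have h0 := hk 0 hcon
  have hb : H 0 = ⊥ := by
    rw [eq_bot_iff]
    intro x _
    rw [Subgroup.mem_bot]
    exact h x
  rw [hb, Subgroup.relIndex_bot_right] at h0
  exact one_ne_zero h0

/-- finitely generated commutative groups -/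
lemma HB_comm (hX : S_HBX) : ∀ (n : ℕ) (A : Type) [Group A], (∀ x y : A, x * y = y * x) →
    ∀ S : Finset A, S.card ≤ n → Subgroup.closure (S : Set A) = ⊤ → ∃ m, HB A m := by
  classical
  intro n
  induction n with
  | zero =>
    intro A _ hA S hS hc
    refine ⟨0, HB_triv A fun x => ?_⟩
    have hS0 : S = ∅ := Finset.card_eq_zero.1 (by omega)
    rw [hS0, Finset.coe_empty, Subgroup.closure_empty] at hc
    have hx : x ∈ (⊥ : Subgroup A) := by
      rw [hc]
      exact Subgroup.mem_top x
    exact Subgroup.mem_bot.1 hx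
  | succ n ih =>
    intro A _ hA S hS hc
    rcases S.eq_empty_or_nonempty with rfl | ⟨a, ha⟩
    · exact ih A hA ∅ (by simp) hc
    have hnorm : (Subgroup.zpowers a).Normal :=
      ⟨fun n hn g => by rw [hA g n, mul_inv_cancel_right]; exact hn⟩
    have hcomm : ∀ x y : A ⧸ Subgroup.zpowers a, x * y = y * x := by
      intro x y
      induction x using QuotientGroup.induction_on with
      | H x =>
        induction y using QuotientGroup.induction_on with
        | H y => rw [← QuotientGroup.mk_mul, ← QuotientGroup.mk_mul, hA]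
    obtain ⟨m, hm⟩ := ih (A ⧸ Subgroup.zpowers a) hcomm
      ((S.erase a).image (QuotientGroup.mk' (Subgroup.zpowers a)))
      (by
        refine Finset.card_image_le.trans ?_
        rw [Finset.card_erase_of_mem ha]
        omega)
      (by
        rw [eq_top_iff]
        have h1 : Subgroup.map (QuotientGroup.mk' (Subgroup.zpowers a)) ⊤ = ⊤ :=
          Subgroup.map_top_of_surjective _ (QuotientGroup.mk'_surjective _)
        rw [← h1, ← hc, MonoidHom.map_closure, Subgroup.closure_le]
        rintro _ ⟨s, hs, rfl⟩
        by_cases hsa : s = a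
        · subst hsa
          have h2 : QuotientGroup.mk' (Subgroup.zpowers s) s = 1 :=
            (QuotientGroup.eq_one_iff s).2 (Subgroup.mem_zpowers s)
          rw [h2]
          exact one_mem _
        · apply Subgroup.subset_closure
          rw [Finset.coe_image]
          exact ⟨s, Finset.mem_coe.2 (Finset.mem_erase.2 ⟨hsa, hs⟩), rfl⟩)
    have h1 : HB (Subgroup.zpowers a) 1 := by
      refine HB_cyc _ ⟨a, Subgroup.mem_zpowers a⟩ ?_
      rintro ⟨x, hx⟩
      obtain ⟨l, hl⟩ := Subgroup.mem_zpowers_iff.1 hx
      exact ⟨l, Subtype.ext (by simpa using hl)⟩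
    exact ⟨1 + m, hX A (Subgroup.zpowers a) 1 m h1 hm⟩

/-- the maximal condition passes to subgroups -/
lemma Mx_sub (P : Type) [Group P] (hP : Mx P) (N : Subgroup P) : Mx N := by
  intro H
  have h1 := hP (H.map N.subtype)
  rw [← Group.fg_iff_subgroup_fg] at h1 ⊢
  have e := H.equivMapOfInjective N.subtype N.subtype_injective
  have hs : Function.Surjective e.symm.toMonoidHom := e.symm.surjective
  exact Group.fg_of_surjective hs

lemma derived_map (P : Type) [Group P] (n : ℕ) :
    (derivedSeries (commutator P) n).map (commutator P).subtype = derivedSeries P (n + 1) := by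
  induction n with
  | zero =>
    rw [derivedSeries_zero, derivedSeries_one, ← MonoidHom.range_eq_map, Subgroup.range_subtype]
  | succ n ih =>
    rw [derivedSeries_succ, Subgroup.map_commutator, ih, ← derivedSeries_succ]

theorem HB_der (hX : S_HBX) : ∀ (n : ℕ) (P : Type) [Group P], derivedSeries P n = ⊥ → Mx P →
    ∃ m, HB P m := by
  classical
  intro n
  induction n with
  | zero =>
    intro P _ hd hP
    refine ⟨0, HB_triv P fun x => ?_⟩
    rw [derivedSeries_zero] at hd
    have hx : x ∈ (⊥ : Subgroup P) := by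
      rw [← hd]
      exact Subgroup.mem_top x
    exact Subgroup.mem_bot.1 hx
  | succ n ih =>
    intro P _ hd hP
    have hd' : derivedSeries (commutator P) n = ⊥ := by
      have h1 := derived_map P n
      rw [hd] at h1
      exact (Subgroup.map_eq_bot_iff_of_injective _ (commutator P).subtype_injective).1 h1
    obtain ⟨m, hm⟩ := ih (commutator P) hd' (Mx_sub P hP _)
    have hcomm : ∀ x y : P ⧸ commutator P, x * y = y * x := fun x y =>
      mul_comm (G := Abelianization P) x y
    obtain ⟨S, hS⟩ := hP ⊤
    obtain ⟨l, hl⟩ := HB_comm hX (S.image (QuotientGroup.mk' (commutator P))).card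
      (P ⧸ commutator P) hcomm (S.image (QuotientGroup.mk' (commutator P))) le_rfl
      (by
        rw [Finset.coe_image, ← MonoidHom.map_closure, hS]
        exact Subgroup.map_top_of_surjective _ (QuotientGroup.mk'_surjective _))
    exact ⟨m + l, hX P (commutator P) m l hm hl⟩

theorem main (hX : S_HBX) : S_HBS := by
  intro P _ hs hP
  obtain ⟨n, hn⟩ := hs
  exact HB_der hX n P hn hP

end Pool.Agent.N77.CP.HBS
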