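import Pool.Agent.N77.CP.Stm

/-!
# Chains of subgroups with steps of infinite index: extensions

Project CP (helper77), part HBX (helper415).
-/

set_option autoImplicit false

namespace Pool.Agent.N77.CP.HBX

open Pool.Agent.N77.CP

/-- if every left coset of `B` in `D` meets `C` and `B ∩ C` has finite index in `C`, then `B ∩ D` has
finite index in `D` -/
theorem fin_of_cosets {P : Type} [Group P] (B C D : Subgroup P) (hCD : C ≤ D)
    (h : ∀ x ∈ D, ∃ n ∈ C, n⁻¹ * x ∈ B) (hfin : B.relIndex C ≠ 0) : B.relIndex D ≠ 0 := by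
  have h1 : Finite (C ⧸ B.subgroupOf C) := Subgroup.index_ne_zero_iff_finite.1 hfin
  apply Subgroup.index_ne_zero_iff_finite.2
  refine Finite.of_surjective (Subgroup.quotientSubgroupOfEmbeddingOfLE B hCD) ?_
  intro y
  induction y using QuotientGroup.induction_on with
  | H x =>
    obtain ⟨n, hn, hx⟩ := h x x.2
    refine ⟨QuotientGroup.mk ⟨n, hn⟩, ?_⟩
    rw [Subgroup.quotientSubgroupOfEmbeddingOfLE_apply_mk]
    apply QuotientGroup.eq.2
    rw [Subgroup.mem_subgroupOf]
    exact hx

/-- the two kinds of steps -/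
theorem step {P : Type} [Group P] (N : Subgroup P) [N.Normal] (A B : Subgroup P) (hBA : B ≤ A)
    (h : B.relIndex A = 0) : B.relIndex (A ⊓ N) = 0 ∨
      (B.map (QuotientGroup.mk' N)).relIndex (A.map (QuotientGroup.mk' N)) = 0 := by
  by_contra hcon
  push Not at hcon
  obtain ⟨h1, h2⟩ := hcon
  rw [Subgroup.relIndex_map_map, QuotientGroup.ker_mk'] at h2
  have h3 : (B ⊔ N).relIndex A ≠ 0 := fun h4 =>
    h2 (Subgroup.relIndex_eq_zero_of_le_right le_sup_left h4)
  have h5 : B.relIndex ((B ⊔ N) ⊓ A) ≠ 0 := by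
    refine fin_of_cosets B (A ⊓ N) ((B ⊔ N) ⊓ A) ?_ ?_ h1
    · intro x hx
      exact ⟨Subgroup.mem_sup_right hx.2, hx.1⟩
    · intro x hx
      obtain ⟨hx1, hx2⟩ := hx
      have hx3 : x ∈ ((B ⊔ N : Subgroup P) : Set P) := hx1
      rw [sup_comm, Subgroup.normal_mul] at hx3
      obtain ⟨n, hn, b, hb, rfl⟩ := hx3
      refine ⟨n, ⟨?_, hn⟩, ?_⟩
      · have h6 := A.mul_mem hx2 (A.inv_mem (hBA hb))
        simpa using h6
      · simpa using hb
  have h6 := Subgroup.relIndex_inf_mul_relIndex B (B ⊔ N) A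
  rw [inf_of_le_left (le_sup_left : B ≤ B ⊔ N), h] at h6
  rcases Nat.mul_eq_zero.1 h6 with h7 | h7
  · exact h5 h7
  · exact h3 h7

/-- compression of a chain -/
theorem compress {Q : Type} [Group Q] : ∀ (k : ℕ) (K : ℕ → Subgroup Q), (∀ i, K (i + 1) ≤ K i) →
    ∃ H : ℕ → Subgroup Q, (∀ i, H (i + 1) ≤ H i) ∧ H 0 ≤ K 0 ∧
      ∀ i < Nat.count (fun i => (K (i + 1)).relIndex (K i) = 0) k, (H (i + 1)).relIndex (H i) = 0 := by
  intro k
  induction k with
  | zero =>
    intro K hK
    refine ⟨K, hK, le_rfl, ?_⟩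
    intro i hi
    simp at hi
  | succ k ih =>
    intro K hK
    obtain ⟨H, h1, h2, h3⟩ := ih (fun i => K (i + 1)) (fun i => hK (i + 1))
    by_cases h0 : (K 1).relIndex (K 0) = 0
    · refine ⟨fun i => Nat.casesOn i (K 0) H, ?_, le_rfl, ?_⟩
      · intro i
        cases i with
        | zero => exact h2.trans (hK 0)
        | succ i => exact h1 i
      · intro i hi
        cases i with
        | zero => exact Subgroup.relIndex_eq_zero_of_le_left h2 h0
        | succ i =>
          refine h3 i ?_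
          rw [Nat.count_succ', if_pos (by simpa using h0)] at hi
          exact Nat.lt_of_succ_lt_succ hi
    · refine ⟨H, h1, h2.trans (hK 0), ?_⟩
      intro i hi
      refine h3 i ?_
      rw [Nat.count_succ', if_neg (by simpa using h0)] at hi
      exact hi

theorem count_le {Q : Type} [Group Q] {a : ℕ} (hQ : HB Q a) (k : ℕ) (K : ℕ → Subgroup Q)
    (hK : ∀ i, K (i + 1) ≤ K i) :
    Nat.count (fun i => (K (i + 1)).relIndex (K i) = 0) k ≤ a := by
  obtain ⟨H, h1, _, h3⟩ := compress k K hK
  exact hQ _ H h1 h3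

theorem count_add (p q : ℕ → Prop) [DecidablePred p] [DecidablePred q] (k : ℕ) (h : ∀ i < k, p i ∨ q i) :
    k ≤ Nat.count p k + Nat.count q k := by
  induction k with
  | zero => simp
  | succ k ih =>
    have h1 := ih fun i hi => h i (by omega)
    rw [Nat.count_succ, Nat.count_succ]
    rcases h k (by omega) with h2 | h2
    · rw [if_pos h2]
      omega
    · rw [if_pos h2]
      omega

theorem main : Pool.Agent.N77.CP.S_HBX := by
  intro P _ N _ a b ha hb k H hH hk
  have h1 := count_le ha k (fun i => (H i).subgroupOf N) (fun i => Subgroup.comap_mono (hH i))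
  have h2 := count_le hb k (fun i => (H i).map (QuotientGroup.mk' N))
    (fun i => Subgroup.map_mono (hH i))
  refine (count_add _ _ k ?_).trans (Nat.add_le_add h1 h2)
  intro i hi
  rcases step N (H i) (H (i + 1)) (hH i) (hk i hi) with h3 | h3
  · left
    have h4 : ((H (i + 1)).subgroupOf N).relIndex ((H i ⊓ N).subgroupOf N) =
        (H (i + 1)).relIndex (H i ⊓ N) := Subgroup.relIndex_subgroupOf inf_le_right
    rw [Subgroup.inf_subgroupOf_right] at h4
    show ((H (i + 1)).subgroupOf N).relIndex ((H i).subgroupOf N) = 0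
    rw [h4, h3]
  · right
    exact h3

end Pool.Agent.N77.CP.HBX
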