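import Mathlib

/-!
# Commensurated polycyclic subgroups and groups acting on trees: statements of the parts
-/

set_option autoImplicit false

namespace Pool.Agent.N77.CP

/-- Every decreasing chain of subgroups of `P` has at most `n` steps of infinite index. -/
def HB (P : Type) [Group P] (n : ℕ) : Prop :=
  ∀ (k : ℕ) (H : ℕ → Subgroup P), (∀ i, H (i + 1) ≤ H i) →
    (∀ i, i < k → (H (i + 1)).relIndex (H i) = 0) → k ≤ n

/-- `P` is commensurated by `G`: every conjugate of `P` meets `P` in a subgroup of finite index of `P`. -/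
def Csd {G : Type} [Group G] (P : Subgroup G) : Prop :=
  ∀ g : G, (P.map (MulAut.conj g).toMonoidHom).relIndex P ≠ 0

/-- `g` centralizes a subgroup of finite index of `P` -/
def VCen {G : Type} [Group G] (P : Subgroup G) (g : G) : Prop :=
  (Subgroup.centralizer {g}).relIndex P ≠ 0

/-- commutator subgroups of subgroups of finite index have finite index in the commutator subgroup -/
def Min (P : Type) [Group P] : Prop :=
  ∀ R : Subgroup P, R.FiniteIndex → ⁅R, R⁆.relIndex (commutator P) ≠ 0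

/-- torsion-free -/
def TF (P : Type) [Group P] : Prop := ∀ (x : P) (n : ℕ), 0 < n → x ^ n = 1 → x = 1

/-- all subgroups are finitely generated -/
def Mx (P : Type) [Group P] : Prop := ∀ H : Subgroup P, H.FG

/-- the conclusion of the representation on homomorphisms to `ℚ` -/
def Good {G : Type} [Group G] (P : Subgroup G) (g : G) : Prop :=
  ∃ X : Subgroup G, X ≤ P ∧ X.relIndex P ≠ 0 ∧ ∀ x ∈ X, g⁻¹ * x * g ∈ P ∧
    ∃ m : ℕ, 0 < m ∧ (g⁻¹ * x * g * x⁻¹) ^ m ∈ ⁅P, P⁆

/-- A. extensions -/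
def S_HBX : Prop := ∀ (P : Type) [Group P] (N : Subgroup P) [N.Normal] (a b : ℕ),
  HB N a → HB (P ⧸ N) b → HB P (a + b)

/-- B. solvable groups with maximal condition -/
def S_HBS : Prop := ∀ (P : Type) [Group P], Group.IsSolvable P → Mx P → ∃ n, HB P n

/-- C. a subgroup of finite index with the minimality property -/
def S_MIN : Prop := ∀ (P : Type) [Group P] (n : ℕ), HB P n →
  ∃ Q : Subgroup P, Q.FiniteIndex ∧ Min Q

/-- D. homomorphisms to `ℚ` extend from subgroups of finite index -/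
def S_EXT : Prop := ∀ (P : Type) [Group P], Min P → ∀ (R : Subgroup P), R.FiniteIndex →
  ∀ f : Additive R →+ ℚ, ∃! f' : Additive P →+ ℚ, ∀ r : R, f' (Additive.ofMul (r : P)) = f (Additive.ofMul r)

/-- E. the representation -/
def S_REP : Prop := ∀ (G : Type) [Group G] (P : Subgroup G), Csd P → Min P →
  ∃ θ : G →* ((Additive P →+ ℚ) ≃ₗ[ℚ] (Additive P →+ ℚ)), ∀ g : G, θ g = 1 →
    ∀ x : P, ∀ h : g⁻¹ * (x : G) * g ∈ P, ∀ f : Additive P →+ ℚ,
      f (Additive.ofMul (⟨g⁻¹ * (x : G) * g, h⟩ : P)) = f (Additive.ofMul x)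

/-- F. elements killed by all homomorphisms to `ℚ` -/
def S_ISO : Prop := ∀ (P : Type) [Group P], Group.FG P → ∀ y : P,
  (∀ f : Additive P →+ ℚ, f (Additive.ofMul y) = 0) → ∃ m : ℕ, 0 < m ∧ y ^ m ∈ commutator P

/-- G. torsion-free FC-groups are abelian -/
def S_FC : Prop := ∀ (P : Type) [Group P], TF P →
  (∀ x : P, (Subgroup.centralizer {x}).FiniteIndex) → ∀ x y : P, x * y = y * x

/-- H. the main step -/
def S_STEP : Prop := ∀ (G : Type) [Group G] (P : Subgroup G), TF P → Group.FG P →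
  ∀ g h : G, (∀ k : G, k = g ∨ k = h ∨ k = g * h ∨ k = h * g → Good P k ∧ VCen ⁅P, P⁆ k) →
    VCen P (g * h * (h * g)⁻¹)

end Pool.Agent.N77.CP
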