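import Pool.Agent.N77.CP.Stm
import Pool.Agent.N509.TK.Loc2
import Pool.Agent.N24.CM.Comm

/-!
# Commensurated polycyclic subgroups: the induction on the derived length
-/

set_option autoImplicit false

namespace Pool.Agent.N77.CP

open Pool.Agent.Y110.FJ (ClosedE)

section ext

variable {C : ∀ (G : Type) [Group G], Prop}

/-- extensions with abelian kernel -/
theorem abExt (hC : ClosedE C) (hM : ∀ (G : Type) [Group G], derivedSeries G 2 = ⊥ → C G)
    {H L : Type} [Group H] [Group L] (F : H →* L) (hL : C L)
    (hab : ∀ x y : H, F x = 1 → F y = 1 → x * y = y * x) : C H := by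
  have key : ∀ K : Subgroup H, (∀ x ∈ K, ∀ y ∈ K, F (x * y * x⁻¹ * y⁻¹) = 1) → C K := by
    intro K hK
    apply hM
    rw [eq_bot_iff]
    have h1 : derivedSeries K 1 ≤ (F.comp K.subtype).ker := by
      rw [derivedSeries_one, commutator_def, Subgroup.commutator_le]
      intro x _ y _
      rw [MonoidHom.mem_ker]
      exact hK x x.2 y y.2
    rw [derivedSeries_succ, Subgroup.commutator_le]
    intro x hx y hy
    rw [Subgroup.mem_bot, commutatorElement_eq_one_iff_mul_comm]
    exact Subtype.ext (hab x y (h1 hx) (h1 hy))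
  refine Pool.Agent.Y529.FJ.t_ext C hC H F.ker ?_ ?_ fun g _ => ?_
  · refine key _ fun x hx y hy => ?_
    rw [MonoidHom.mem_ker] at hx hy
    simp [hx, hy]
  · exact hC.base.of_injective _ _ (QuotientGroup.kerLift F) (QuotientGroup.kerLift_injective F) hL
  · refine key _ fun x hx y hy => ?_
    have h1 : (F.ker ⊔ Subgroup.zpowers g).map F ≤ Subgroup.zpowers (F g) := by
      rw [Subgroup.map_sup]
      refine sup_le ?_ ?_
      · rintro _ ⟨z, hz, rfl⟩
        rw [MonoidHom.mem_ker.1 hz]
        exact one_mem _
      · rw [MonoidHom.map_zpowers]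
    obtain ⟨a, ha⟩ := h1 ⟨x, hx, rfl⟩
    obtain ⟨b, hb⟩ := h1 ⟨y, hy, rfl⟩
    have ha' : F g ^ a = F x := ha
    have hb' : F g ^ b = F y := hb
    rw [map_mul, map_mul, map_mul, map_inv, map_inv, ← ha', ← hb']
    group

end ext

section csd

variable {G : Type} [Group G]

theorem relIndex_conj (g : G) (A B : Subgroup G) :
    (A.map (MulAut.conj g).toMonoidHom).relIndex (B.map (MulAut.conj g).toMonoidHom) =
      A.relIndex B :=
  Subgroup.relIndex_map_map_of_injective A B (MulAut.conj g).injective

theorem map_conj_conj (g h : G) (A : Subgroup G) :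
    (A.map (MulAut.conj h).toMonoidHom).map (MulAut.conj g).toMonoidHom =
      A.map (MulAut.conj (g * h)).toMonoidHom := by
  rw [Subgroup.map_map]
  congr 1
  ext x
  simp

theorem map_conj_one (A : Subgroup G) : A.map (MulAut.conj (1 : G)).toMonoidHom = A := by
  ext x
  simp

/-- a subgroup of finite index of a commensurated subgroup is commensurated -/
theorem Csd.of_le {P R : Subgroup G} (hP : Csd P) (hle : R ≤ P) (hR : R.relIndex P ≠ 0) :
    Csd R := by
  intro g
  have h1 : (R.map (MulAut.conj g).toMonoidHom).relIndex (P.map (MulAut.conj g).toMonoidHom) ≠ 0 := by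
    rw [relIndex_conj]
    exact hR
  have h2 := Subgroup.relIndex_ne_zero_trans h1 (hP g)
  refine Subgroup.relIndex_ne_zero_trans h2 ?_
  rw [Subgroup.relIndex_eq_one.2 hle]
  exact one_ne_zero

theorem mem_map_conj {g x : G} {P : Subgroup G} :
    x ∈ P.map (MulAut.conj g).toMonoidHom ↔ g⁻¹ * x * g ∈ P := by
  constructor
  · rintro ⟨y, hy, rfl⟩
    have : g⁻¹ * (g * y * g⁻¹) * g = y := by group
    show g⁻¹ * (g * y * g⁻¹) * g ∈ P
    rw [this]
    exact hy
  · intro h
    exact ⟨g⁻¹ * x * g, h, by show g * (g⁻¹ * x * g) * g⁻¹ = x; group⟩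

/-- the elements which centralize a subgroup of finite index of `P` -/
def Vc (P : Subgroup G) : Subgroup G where
  carrier := {g | VCen P g}
  mul_mem' := by
    intro a b ha hb
    have h1 : (Subgroup.centralizer {a} ⊓ Subgroup.centralizer {b}).relIndex P ≠ 0 :=
      Subgroup.relIndex_inf_ne_zero ha hb
    refine fun h0 => h1 (Subgroup.relIndex_eq_zero_of_le_left ?_ h0)
    intro x hx
    rw [Subgroup.mem_inf, Subgroup.mem_centralizer_singleton_iff,
      Subgroup.mem_centralizer_singleton_iff] at hx
    rw [Subgroup.mem_centralizer_singleton_iff]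
    calc x * (a * b) = (x * a) * b := by group
      _ = a * (x * b) := by rw [hx.1]; group
      _ = a * b * x := by rw [hx.2]; group
  one_mem' := by
    show (Subgroup.centralizer {(1 : G)}).relIndex P ≠ 0
    have : Subgroup.centralizer {(1 : G)} = ⊤ := by
      ext x
      rw [Subgroup.mem_centralizer_singleton_iff]
      simp
    rw [this, Subgroup.relIndex_top_left]
    exact one_ne_zero
  inv_mem' := by
    intro a ha
    have : Subgroup.centralizer {a⁻¹} = Subgroup.centralizer {a} := by
      ext x
      rw [Subgroup.mem_centralizer_singleton_iff, Subgroup.mem_centralizer_singleton_iff]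
      constructor
      · intro h
        have := congrArg (fun z => a * z * a) h
        simp only [mul_assoc, inv_mul_cancel, mul_one] at this
        rw [mul_inv_cancel_left] at this
        exact this.symm
      · intro h
        have := congrArg (fun z => a⁻¹ * z * a⁻¹) h
        simp only [mul_assoc, mul_inv_cancel, mul_one] at this
        rw [inv_mul_cancel_left] at this
        exact this.symm
    show (Subgroup.centralizer {a⁻¹}).relIndex P ≠ 0
    rw [this]
    exact ha

theorem mem_Vc {P : Subgroup G} {g : G} : g ∈ Vc P ↔ VCen P g := Iff.rfl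

/-- normality for commensurated subgroups -/
theorem Vc_conj {P : Subgroup G} (hP : Csd P) (g : G) {x : G} (hx : x ∈ Vc P) :
    g * x * g⁻¹ ∈ Vc P := by
  show (Subgroup.centralizer {g * x * g⁻¹}).relIndex P ≠ 0
  have h1 : Subgroup.centralizer {g * x * g⁻¹} =
      (Subgroup.centralizer {x}).map (MulAut.conj g).toMonoidHom := by
    ext y
    rw [mem_map_conj, Subgroup.mem_centralizer_singleton_iff, Subgroup.mem_centralizer_singleton_iff]
    constructor
    · intro h
      have := congrArg (fun z => g⁻¹ * z * g) h
      calc g⁻¹ * y * g * x = g⁻¹ * (y * (g * x * g⁻¹)) * g := by group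
        _ = g⁻¹ * (g * x * g⁻¹ * y) * g := by rw [h]
        _ = x * (g⁻¹ * y * g) := by group
    · intro h
      calc y * (g * x * g⁻¹) = g * (g⁻¹ * y * g * x) * g⁻¹ := by group
        _ = g * (x * (g⁻¹ * y * g)) * g⁻¹ := by rw [h]
        _ = g * x * g⁻¹ * y := by group
  rw [h1]
  have h2 : ((Subgroup.centralizer {x}).map (MulAut.conj g).toMonoidHom).relIndex
      (P.map (MulAut.conj g).toMonoidHom) ≠ 0 := by
    rw [relIndex_conj]
    exact hx
  exact Subgroup.relIndex_ne_zero_trans h2 (hP g)

theorem VCen.of_fin {P R : Subgroup G} (hR : R.relIndex P ≠ 0) {g : G} (h : VCen R g) : VCen P g :=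
  Subgroup.relIndex_ne_zero_trans h hR

theorem TF.of_le {P R : Subgroup G} (hle : R ≤ P) (h : TF P) : TF R := by
  intro x n hn hx
  have h0 : (x : G) ^ n = 1 := by
    have := congrArg (fun z : R => (z : G)) hx
    simpa using this
  have h1 := h ⟨x, hle x.2⟩ n hn (by
    apply Subtype.ext
    simpa using h0)
  have h2 : (x : G) = 1 := by
    have := congrArg (fun z : P => (z : G)) h1
    simpa using this
  exact Subtype.ext (by simpa using h2)

theorem Mx.of_le {P R : Subgroup G} (hle : R ≤ P) (h : Mx P) : Mx R := by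
  intro H
  have h1 := h ((H.map R.subtype).subgroupOf P)
  rw [← Group.fg_iff_subgroup_fg] at h1 ⊢
  have h2 : H.map R.subtype ≤ P := by
    rintro _ ⟨y, _, rfl⟩
    exact hle y.2
  let e := (Subgroup.subgroupOfEquivOfLe h2).trans
    (H.equivMapOfInjective R.subtype R.subtype_injective).symm
  exact Group.fg_of_surjective (f := e.toMonoidHom) e.surjective

/-- derived length inside a group -/
def SL : ℕ → Subgroup G → Prop
  | 0, P => P = ⊥
  | n + 1, P => SL n ⁅P, P⁆

theorem SL.mono : ∀ {n : ℕ} {P R : Subgroup G}, R ≤ P → SL n P → SL n R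
  | 0, P, R, h, hP => by
    have h1 : P = ⊥ := hP
    rw [h1] at h
    exact eq_bot_iff.2 h
  | n + 1, P, R, h, hP => SL.mono (n := n) (Subgroup.commutator_mono h h) hP

theorem exists_SL {P : Subgroup G} (hP : Group.IsSolvable P) : ∃ n, SL n P := by
  obtain ⟨n, hn⟩ := hP.solvable
  have key : ∀ (n k : ℕ), ((derivedSeries P (n + k)).map P.subtype = ⊥) →
      SL n ((derivedSeries P k).map P.subtype) := by
    intro n
    induction n with
    | zero =>
      intro k hk
      rw [zero_add] at hk
      exact hk
    | succ n ih =>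
      intro k hk
      show SL n ⁅(derivedSeries P k).map P.subtype, (derivedSeries P k).map P.subtype⁆
      rw [← Subgroup.map_commutator, ← derivedSeries_succ]
      apply ih
      rw [← hk]
      congr 2
      ring
  have h := key n 0 (by rw [add_zero, hn, Subgroup.map_bot])
  rw [derivedSeries_zero, ← MonoidHom.range_eq_map, Subgroup.range_subtype] at h
  exact ⟨n, h⟩

theorem relIndex_commutator {P : Subgroup G} (hP : Min P) {R : Subgroup G} (hle : R ≤ P)
    (hR : R.relIndex P ≠ 0) : ⁅R, R⁆.relIndex ⁅P, P⁆ ≠ 0 := by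
  have h1 := hP (R.subgroupOf P) ⟨hR⟩
  have h2 := Subgroup.relIndex_map_map_of_injective ⁅R.subgroupOf P, R.subgroupOf P⁆ (commutator P)
    (f := P.subtype) P.subtype_injective
  rw [Subgroup.map_commutator, Subgroup.subgroupOf_map_subtype, inf_of_le_left hle, commutator_def,
    Subgroup.map_commutator, ← MonoidHom.range_eq_map, Subgroup.range_subtype] at h2
  rw [h2, ← commutator_def]
  exact h1

theorem Csd.commutator {P : Subgroup G} (hP : Csd P) (hm : Min P) : Csd ⁅P, P⁆ := by
  intro g
  have h1 : (P ⊓ P.map (MulAut.conj g).toMonoidHom).relIndex P ≠ 0 := by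
    rw [Subgroup.inf_relIndex_left]
    exact hP g
  have h2 := relIndex_commutator hm inf_le_left h1
  refine fun h0 => h2 (Subgroup.relIndex_eq_zero_of_le_left ?_ h0)
  rw [Subgroup.map_commutator]
  exact Subgroup.commutator_mono inf_le_right inf_le_right

end csd

/-- transfer of minimality -/
theorem Min.of_equiv {P R : Type} [Group P] [Group R] (e : P ≃* R) (h : Min P) : Min R := by
  intro X hX
  have h1 : (X.comap e.toMonoidHom).FiniteIndex := by
    refine ⟨?_⟩
    rw [Subgroup.index_comap_of_surjective X (f := e.toMonoidHom) e.surjective]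
    exact hX.index_ne_zero
  have h2 := h _ h1
  have h3 := Subgroup.relIndex_map_map_of_injective ⁅X.comap e.toMonoidHom, X.comap e.toMonoidHom⁆
    (_root_.commutator P) (f := e.toMonoidHom) e.injective
  rw [Subgroup.map_commutator, Subgroup.map_comap_eq_self_of_surjective (f := e.toMonoidHom)
    e.surjective, commutator_def, Subgroup.map_commutator,
    Subgroup.map_top_of_surjective e.toMonoidHom e.surjective, ← commutator_def,
    ← commutator_def] at h3
  rw [h3]
  exact h2

end Pool.Agent.N77.CP
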